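import Pool.Agent.Helper20.HP.Data2
import Pool.Agent.Helper20.PC.Sph

/-!
HOPF-Q1: Christoffel symbols and curvature of the conformal base metric `hE`.
-/

open Filter Metric Module Set
open scoped Topology ContDiff RealInnerProductSpace Manifold Quaternion

namespace Pool.Agent.Helper87.HP
open Pool.Agent.Helper20.PC Pool.Agent.Helper20.HP

/-! ### coordinates -/

lemma in3 (x y : E3) : ⟪x, y⟫ = x 0 * y 0 + x 1 * y 1 + x 2 * y 2 := by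
  simp [PiLp.inner_apply, Fin.sum_univ_three]
  ring

lemma Hb_eq (x y : E3) : Hb x y = ⟪Hv x, y⟫ := by
  rw [in3]
  simp [Hb, HbG, Hv]
  ring

lemma Hb_comm (x y : E3) : Hb x y = Hb y x := by
  simp [Hb, HbG]
  ring

/-- `Hv` as a continuous linear map. -/
noncomputable def HvL : E3 →L[ℝ] E3 :=
  LinearMap.toContinuousLinearMap
    { toFun := Hv
      map_add' := fun p q => by ext i; fin_cases i <;> (simp [Hv]; try ring)
      map_smul' := fun r q => by ext i; fin_cases i <;> (simp [Hv]; try ring) }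

lemma HvL_apply (x : E3) : HvL x = Hv x := rfl

/-- `x ↦ x - κ H x`. -/
noncomputable def pL (κ : ℝ) : E3 →L[ℝ] E3 := ContinuousLinearMap.id ℝ E3 - κ • HvL

/-- the bilinear form `⟨x,y⟩ - κ H(x,y)`. -/
noncomputable def pp (κ : ℝ) (x y : E3) : ℝ := ⟪x, y⟫ - κ * Hb x y

lemma inner_pL (κ : ℝ) (x y : E3) : ⟪pL κ x, y⟫ = pp κ x y := by
  simp [pL, pp, Hb_eq, inner_sub_left, inner_smul_left, HvL_apply]

lemma pp_comm (κ : ℝ) (x y : E3) : pp κ x y = pp κ y x := by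
  rw [pp, pp, Hb_comm, real_inner_comm]

lemma pp_pos {κ : ℝ} (hκ : |κ| ≤ 1/10) {x : E3} (hx : x ≠ 0) : 0 < pp κ x x := by
  have h0 : 0 < ⟪x, x⟫ := by
    rw [real_inner_self_eq_norm_sq]
    have := norm_pos_iff.2 hx
    positivity
  have h1 : |Hb x x| ≤ 2 * ⟪x, x⟫ := by
    rw [abs_le, in3]
    simp only [Hb, HbG]
    constructor <;> nlinarith [sq_nonneg (x 0 + x 1), sq_nonneg (x 0 + x 2), sq_nonneg (x 0 - x 1),
      sq_nonneg (x 0 - x 2), sq_nonneg (x 1), sq_nonneg (x 2), sq_nonneg (x 0)]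
  have h2 : |κ * Hb x x| ≤ (1/10) * (2 * ⟪x, x⟫) := by
    rw [abs_mul]
    exact mul_le_mul hκ h1 (abs_nonneg _) (by norm_num)
  have h3 := (abs_le.1 h2).2
  rw [pp]
  linarith

lemma hasFDerivAt_in (u z : E3) : HasFDerivAt (fun z : E3 => ⟪z, u⟫) (innerSL ℝ u) z := by
  have h : HasFDerivAt (fun z : E3 => (innerSL ℝ u) z) (innerSL ℝ u) z := (innerSL ℝ u).hasFDerivAt
  refine h.congr_of_eventuallyEq (Eventually.of_forall fun z => ?_)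
  simp [real_inner_comm]

lemma hasFDerivAt_pp (κ : ℝ) (z : E3) :
    HasFDerivAt (fun z : E3 => pp κ z z) ((2 : ℝ) • innerSL ℝ (pL κ z)) z := by
  have h1 := ((pL κ).hasFDerivAt (x := z)).inner ℝ (hasFDerivAt_id z)
  have h2 : HasFDerivAt (fun z : E3 => pp κ z z) _ z :=
    h1.congr_of_eventuallyEq (Eventually.of_forall fun z => (inner_pL κ z z).symm)
  refine h2.congr_fderiv ?_
  ext t
  simp only [ContinuousLinearMap.comp_apply, ContinuousLinearMap.prod_apply, fderivInnerCLM_apply,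
    smul_apply, innerSL_apply_apply, smul_eq_mul, id_eq,
    ContinuousLinearMap.id_apply]
  rw [inner_pL, inner_pL, pp_comm κ t z]
  ring

lemma pp_zero (x y : E3) : pp 0 x y = ⟪x, y⟫ := by simp [pp]

lemma hasFDerivAt_rho (z : E3) :
    HasFDerivAt (fun z : E3 => ⟪z, z⟫) ((2 : ℝ) • innerSL ℝ z) z := by
  have h := hasFDerivAt_pp 0 z
  have e : pL 0 z = z := by simp [pL]
  rw [e] at h
  exact h.congr_of_eventuallyEq (Eventually.of_forall fun z => (pp_zero z z).symm)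

/-! ### the metric -/

lemma sg_nn (κ : ℝ) {z : E3} (hz : z ≠ 0) : sg κ (nn z) = pp κ z z * (⟪z, z⟫)⁻¹ := by
  have hn : ‖z‖ ≠ 0 := norm_ne_zero_iff.2 hz
  have h1 : ⟪z, z⟫ = ‖z‖ ^ 2 := real_inner_self_eq_norm_sq z
  have h2 : Hb (nn z) (nn z) = (‖z‖⁻¹) ^ 2 * Hb z z := by
    simp [nn, Hb, HbG]
    ring
  rw [sg, h2, pp, h1]
  field_simp

lemma hE_apply (κ : ℝ) {z : E3} (hz : z ≠ 0) (u v : E3) :
    hE κ z u v = (⟪z, z⟫ ^ 2)⁻¹ * (⟪z, u⟫ * ⟪z, v⟫)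
      + (pp κ z z ^ 2)⁻¹ * (⟪z, z⟫ * ⟪u, v⟫ - ⟪z, u⟫ * ⟪z, v⟫) := by
  have hn : ‖z‖ ≠ 0 := norm_ne_zero_iff.2 hz
  have h1 : ⟪z, z⟫ = ‖z‖ ^ 2 := real_inner_self_eq_norm_sq z
  have e1 : hE κ z u v = dl z u * dl z v + ((sg κ (nn z)) ^ 2)⁻¹ * ⟪dn z u, dn z v⟫ := by
    simp [hE, hhat, inL]
    exact Or.inl rfl
  have e2 : ⟪dn z u, dn z v⟫ = (‖z‖⁻¹) ^ 2 * (⟪u, v⟫ - (‖z‖ ^ 2)⁻¹ * (⟪z, u⟫ * ⟪z, v⟫)) := by
    rw [dn_apply, dn_apply, inner_smul_left, inner_smul_right, inner_sub_left, inner_sub_right,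
      inner_sub_right, inner_smul_left, inner_smul_right, inner_smul_left, inner_smul_right, dl_apply,
      dl_apply, h1, RCLike.conj_to_real, RCLike.conj_to_real, real_inner_comm z u]
    field_simp
    ring
  rw [e1, e2, dl_apply, dl_apply, sg_nn κ hz, h1]
  by_cases hp : pp κ z z = 0
  · rw [hp]
    simp
    field_simp
  · field_simp


/-- first derivative of the metric, explicitly. -/
noncomputable def dGe (κ : ℝ) (t u v z : E3) : ℝ :=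
  -4 * (⟪z, z⟫ ^ 3)⁻¹ * ⟪z, t⟫ * (⟪z, u⟫ * ⟪z, v⟫)
    + (⟪z, z⟫ ^ 2)⁻¹ * (⟪t, u⟫ * ⟪z, v⟫ + ⟪z, u⟫ * ⟪t, v⟫)
    - 4 * (pp κ z z ^ 3)⁻¹ * pp κ z t * (⟪z, z⟫ * ⟪u, v⟫ - ⟪z, u⟫ * ⟪z, v⟫)
    + (pp κ z z ^ 2)⁻¹ * (2 * ⟪z, t⟫ * ⟪u, v⟫ - ⟪t, u⟫ * ⟪z, v⟫ - ⟪z, u⟫ * ⟪t, v⟫)

lemma hasFDerivAt_inv_pow {f : E3 → ℝ} {f' : E3 →L[ℝ] ℝ} {z : E3} (hf : HasFDerivAt f f' z)
    (h0 : f z ≠ 0) (n : ℕ) :
    HasFDerivAt (fun z => (f z ^ n)⁻¹) ((-(n : ℝ) * (f z ^ (n + 1))⁻¹) • f') z := by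
  have h1 : HasDerivAt (fun s : ℝ => (s ^ n)⁻¹) (-(n : ℝ) * (f z ^ (n + 1))⁻¹) (f z) := by
    have h2 := (hasDerivAt_pow n (f z)).inv (pow_ne_zero n h0)
    refine h2.congr_deriv ?_
    rcases n with _ | n
    · simp
    · simp only [Nat.add_sub_cancel]
      field_simp
      ring
  exact h1.comp_hasFDerivAt z hf

lemma dG_hE {κ : ℝ} (hκ : |κ| ≤ 1/10) {z : E3} (hz : z ≠ 0) (t u v : E3) :
    dG (hE κ) z t u v = dGe κ t u v z := by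
  have h0 : ⟪z, z⟫ ≠ 0 := by simpa using hz
  have hp : pp κ z z ≠ 0 := (pp_pos hκ hz).ne'
  have hr := hasFDerivAt_inv_pow (hasFDerivAt_rho z) h0 2
  have hP := hasFDerivAt_inv_pow (hasFDerivAt_pp κ z) hp 2
  have hu := hasFDerivAt_in u z
  have hv := hasFDerivAt_in v z
  have h1 := (hr.mul (hu.mul hv)).add (hP.mul (((hasFDerivAt_rho z).mul_const ⟪u, v⟫).sub
    (hu.mul hv)))
  have h2 : HasFDerivAt (fun z' => hE κ z' u v) _ z := h1.congr_of_eventuallyEq (by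
    filter_upwards [isOpen_ne.mem_nhds hz] with z' hz'
    exact hE_apply κ hz' u v)
  rw [dG, h2.fderiv, dGe]
  simp only [_root_.add_apply, _root_.sub_apply, _root_.smul_apply, innerSL_apply_apply, smul_eq_mul,
    inner_pL, real_inner_comm t u, real_inner_comm t v, Pi.mul_apply, Pi.sub_apply]
  push_cast
  ring


/-- second derivative of the metric at a unit vector, for tangent vectors. -/
lemma ddG_hE {κ : ℝ} (hκ : |κ| ≤ 1/10) {x : E3} (hx : ‖x‖ = 1) {s t u v : E3} (hs : ⟪x, s⟫ = 0)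
    (ht : ⟪x, t⟫ = 0) (hu : ⟪x, u⟫ = 0) (hv : ⟪x, v⟫ = 0) :
    ddG (hE κ) x s t u v = (⟪t, u⟫ * ⟪s, v⟫ + ⟪s, u⟫ * ⟪t, v⟫)
      + 24 * (pp κ x x ^ 4)⁻¹ * (pp κ x s * pp κ x t) * ⟪u, v⟫
      - 4 * (pp κ x x ^ 3)⁻¹ * pp κ s t * ⟪u, v⟫
      + (pp κ x x ^ 2)⁻¹ * (2 * ⟪s, t⟫ * ⟪u, v⟫ - ⟪t, u⟫ * ⟪s, v⟫ - ⟪s, u⟫ * ⟪t, v⟫) := by
  have hx0 : x ≠ 0 := by
    intro h; rw [h, norm_zero] at hx; exact zero_ne_one hx
  have h1x : ⟪x, x⟫ = 1 := by rw [real_inner_self_eq_norm_sq, hx]; norm_num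
  have h0 : ⟪x, x⟫ ≠ 0 := by rw [h1x]; exact one_ne_zero
  have hp : pp κ x x ≠ 0 := (pp_pos hκ hx0).ne'
  have hr2 := hasFDerivAt_inv_pow (hasFDerivAt_rho x) h0 2
  have hr3 := hasFDerivAt_inv_pow (hasFDerivAt_rho x) h0 3
  have hP2 := hasFDerivAt_inv_pow (hasFDerivAt_pp κ x) hp 2
  have hP3 := hasFDerivAt_inv_pow (hasFDerivAt_pp κ x) hp 3
  have hru := hasFDerivAt_rho x
  have hu' := hasFDerivAt_in u x
  have hv' := hasFDerivAt_in v x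
  have ht' := hasFDerivAt_in t x
  have hpt : HasFDerivAt (fun z => pp κ z t) (innerSL ℝ (pL κ t)) x := by
    have := (innerSL ℝ (pL κ t)).hasFDerivAt (x := x)
    refine this.congr_of_eventuallyEq (Eventually.of_forall fun z => ?_)
    simp [inner_pL, pp_comm κ z t]
  have hQ := (hru.mul_const ⟪u, v⟫).sub (hu'.mul hv')
  have hR := (((ht'.const_mul 2).mul_const ⟪u, v⟫).sub (hv'.const_mul ⟪t, u⟫)).sub
    (hu'.mul_const ⟪t, v⟫)
  have hA := ((hr3.const_mul (-4)).mul ht').mul (hu'.mul hv')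
  have hB := hr2.mul ((hv'.const_mul ⟪t, u⟫).add (hu'.mul_const ⟪t, v⟫))
  have hC := ((hP3.const_mul 4).mul hpt).mul hQ
  have hD := hP2.mul hR
  have h1 := ((hA.add hB).sub hC).add hD
  have h2 : HasFDerivAt (fun z' => dG (hE κ) z' t u v) _ x := h1.congr_of_eventuallyEq (by
    filter_upwards [isOpen_ne.mem_nhds hx0] with z' hz'
    exact dG_hE hκ hz' t u v)
  rw [ddG, h2.fderiv]
  simp only [_root_.add_apply, _root_.sub_apply, _root_.smul_apply, innerSL_apply_apply, smul_eq_mul,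
    inner_pL, Pi.mul_apply, Pi.sub_apply, Pi.add_apply, hs, ht, hu, hv, h1x]
  rw [real_inner_comm s t, real_inner_comm s u, real_inner_comm s v, pp_comm κ t s]
  push_cast
  ring


/-! ### Q1a -/

lemma contDiffAt_sg (κ : ℝ) {y : E3} {k : WithTop ℕ∞} : ContDiffAt ℝ k (sg κ) y := by
  have h : ContDiffAt ℝ k (fun y : E3 => 1 - κ * ⟪HvL y, y⟫) y :=
    contDiffAt_const.sub (contDiffAt_const.mul (HvL.contDiff.contDiffAt.inner ℝ contDiffAt_id))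
  refine h.congr_of_eventuallyEq (Eventually.of_forall fun z => ?_)
  simp only [sg, Hb_eq, HvL_apply]

lemma contDiffAt_nn {x : E3} (hx : x ≠ 0) {k : WithTop ℕ∞} : ContDiffAt ℝ k nn x :=
  ((contDiffAt_norm ℝ hx).inv (norm_ne_zero_iff.2 hx)).smul contDiffAt_id

lemma contDiffAt_smul_const {E F : Type*} [NormedAddCommGroup E] [NormedSpace ℝ E]
    [NormedAddCommGroup F] [NormedSpace ℝ F] {f : E → ℝ} (c : F) {x : E} {k : WithTop ℕ∞}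
    (hf : ContDiffAt ℝ k f x) : ContDiffAt ℝ k (fun x => f x • c) x :=
  hf.smul contDiffAt_const

lemma contDiffAt_hE {κ : ℝ} (hκ : |κ| ≤ 1/10) {x : E3} (hx : x ≠ 0) {k : WithTop ℕ∞} :
    ContDiffAt ℝ k (hE κ) x := by
  have h0 : 0 < ⟪x, x⟫ := by
    rw [real_inner_self_eq_norm_sq]
    have := norm_pos_iff.2 hx
    positivity
  have h1 : ContDiffAt ℝ k (fun x => sg κ (nn x)) x :=
    (contDiffAt_sg κ).comp x (contDiffAt_nn hx)
  have hne : sg κ (nn x) ^ 2 ≠ 0 := by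
    rw [sg_nn κ hx]
    have := pp_pos hκ hx
    positivity
  have h2 : ContDiffAt ℝ k (fun x => hhat κ (nn x)) x := by
    unfold hhat
    exact contDiffAt_smul_const inL ((h1.pow 2).inv hne)
  exact ((contDiffAt_dl hx).smulRight (contDiffAt_dl hx)).add
    (contDiffAt_bilinearComp h2 (contDiffAt_dn hx))

theorem metAt_hE {κ : ℝ} (hκ : |κ| ≤ 1/10) {x : E3} (hx : x ≠ 0) : MetAt (hE κ) x where
  smooth := contDiffAt_hE hκ hx
  symm := by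
    filter_upwards [isOpen_ne.mem_nhds hx] with z hz u v
    rw [hE_apply κ hz, hE_apply κ hz, real_inner_comm u v]
    ring
  pos := by
    filter_upwards [isOpen_ne.mem_nhds hx] with z hz u hu
    rw [hE_apply κ hz]
    have h0 : 0 < ⟪z, z⟫ := by
      rw [real_inner_self_eq_norm_sq]
      have := norm_pos_iff.2 hz
      positivity
    have h1 : 0 < ⟪u, u⟫ := by
      rw [real_inner_self_eq_norm_sq]
      have := norm_pos_iff.2 hu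
      positivity
    have hp := pp_pos hκ hz
    have hcs : ⟪z, u⟫ * ⟪z, u⟫ ≤ ⟪z, z⟫ * ⟪u, u⟫ := real_inner_mul_inner_self_le z u
    have hz2 : 0 ≤ (⟪z, z⟫ ^ 2)⁻¹ * (⟪z, u⟫ * ⟪z, u⟫) := by
      have := mul_self_nonneg ⟪z, u⟫
      positivity
    have hz3 : 0 ≤ (pp κ z z ^ 2)⁻¹ * (⟪z, z⟫ * ⟪u, u⟫ - ⟪z, u⟫ * ⟪z, u⟫) := by
      have : 0 ≤ ⟪z, z⟫ * ⟪u, u⟫ - ⟪z, u⟫ * ⟪z, u⟫ := by linarith
      positivity
    by_cases h : ⟪z, u⟫ = 0
    · have : 0 < (pp κ z z ^ 2)⁻¹ * (⟪z, z⟫ * ⟪u, u⟫ - ⟪z, u⟫ * ⟪z, u⟫) := by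
        rw [h]
        have : 0 < ⟪z, z⟫ * ⟪u, u⟫ - 0 * 0 := by
          have := mul_pos h0 h1
          linarith
        positivity
      linarith
    · have : 0 < (⟪z, z⟫ ^ 2)⁻¹ * (⟪z, u⟫ * ⟪z, u⟫) := by
        have := mul_self_pos.2 h
        positivity
      linarith

/-! ### Q1b -/

lemma ne_zero_of_unit {x : E3} (hx : ‖x‖ = 1) : x ≠ 0 := by
  intro h; rw [h, norm_zero] at hx; exact zero_ne_one hx

lemma inner_unit {x : E3} (hx : ‖x‖ = 1) : ⟪x, x⟫ = 1 := by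
  rw [real_inner_self_eq_norm_sq, hx]; norm_num

lemma pp_unit (κ : ℝ) {x : E3} (hx : ‖x‖ = 1) : pp κ x x = sg κ x := by
  rw [pp, inner_unit hx, sg]

lemma chr_hE {κ : ℝ} (hκ : |κ| ≤ 1/10) {x u v : E3} (hx : ‖x‖ = 1) (hu : ⟪x, u⟫ = 0)
    (hv : ⟪x, v⟫ = 0) (w : E3) :
    chr (hE κ) x u v w = ⟪u, v⟫ * ⟪x, w⟫ * (1 - 2 * (sg κ x ^ 2)⁻¹)
      - 2 * (sg κ x ^ 3)⁻¹ * (-(κ * Hb x u) * ⟪v, w⟫ - κ * Hb x v * ⟪u, w⟫
        - (⟪x, w⟫ - κ * Hb x w) * ⟪u, v⟫) := by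
  have hx0 := ne_zero_of_unit hx
  rw [chr_apply (metAt_hE hκ hx0).smooth, dG_hE hκ hx0, dG_hE hκ hx0, dG_hE hκ hx0]
  simp only [dGe, inner_unit hx, hu, hv, pp_unit κ hx, real_inner_comm w u, real_inner_comm w v,
    real_inner_comm v u]
  simp only [pp, hu, hv]
  ring

theorem gam_hE {κ : ℝ} (hκ : |κ| ≤ 1/10) {x u v : E3} (hx : ‖x‖ = 1) (hu : ⟪x, u⟫ = 0) (hv : ⟪x, v⟫ = 0) :
    Gam (hE κ) x u v = (2 * κ / sg κ x) • (Hb x u • v + Hb x v • u)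
      - (2 * κ / sg κ x * ⟪u, v⟫) • (Hv x - Hb x x • x) + (⟪u, v⟫ : ℝ) • x := by
  have hx0 := ne_zero_of_unit hx
  have hs : sg κ x ≠ 0 := by
    rw [← pp_unit κ hx]
    exact (pp_pos hκ hx0).ne'
  have hs' : sg κ x = 1 - κ * Hb x x := rfl
  refine Gam_unique (metAt_hE hκ hx0) (fun w => ?_)
  rw [chr_hE hκ hx hu hv, hE_apply κ hx0]
  simp only [inner_add_left, inner_sub_left, inner_smul_left, inner_add_right, inner_sub_right,
    inner_smul_right, RCLike.conj_to_real, hu, hv, inner_unit hx, pp_unit κ hx, ← Hb_eq]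
  have e1 : ⟪x, Hv x⟫ = Hb x x := by rw [Hb_eq, real_inner_comm]
  rw [e1]
  generalize Hb x u = Hu at *
  generalize Hb x v = Hw at *
  generalize Hb x w = Hz at *
  generalize hH : Hb x x = H at *
  generalize ⟪u, v⟫ = g at *
  generalize ⟪x, w⟫ = xw at *
  generalize ⟪u, w⟫ = uw at *
  generalize ⟪v, w⟫ = vw at *
  generalize sg κ x = S at *
  have hκH : κ * H = 1 - S := by linarith
  field_simp
  linear_combination (2 * g * xw) * hκH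


/-! ### Q1c -/

/-- trace identity on the tangent plane. -/
lemma trace_tangent {x u v : E3} (hx : ‖x‖ = 1) (hu : ⟪x, u⟫ = 0) (hv : ⟪x, v⟫ = 0) :
    Hb u u * ⟪v, v⟫ + Hb v v * ⟪u, u⟫ - 2 * Hb u v * ⟪u, v⟫
      = - Hb x x * (⟪u, u⟫ * ⟪v, v⟫ - ⟪u, v⟫ ^ 2) := by
  have hx1 := inner_unit hx
  rw [in3] at hx1 hu hv
  obtain ⟨l, hl⟩ : ∃ l : ℝ, l = x 0 * (u 1 * v 2 - u 2 * v 1) + x 1 * (u 2 * v 0 - u 0 * v 2)
    + x 2 * (u 0 * v 1 - u 1 * v 0) := ⟨_, rfl⟩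
  have h0 : u 1 * v 2 - u 2 * v 1 = l * x 0 := by
    rw [hl]
    linear_combination (-(u 1 * v 2 - u 2 * v 1)) * hx1 - (x 1 * u 2 - x 2 * u 1) * hv
      + (x 1 * v 2 - x 2 * v 1) * hu
  have h1 : u 2 * v 0 - u 0 * v 2 = l * x 1 := by
    rw [hl]
    linear_combination (-(u 2 * v 0 - u 0 * v 2)) * hx1 - (x 2 * u 0 - x 0 * u 2) * hv
      + (x 2 * v 0 - x 0 * v 2) * hu
  have h2 : u 0 * v 1 - u 1 * v 0 = l * x 2 := by
    rw [hl]
    linear_combination (-(u 0 * v 1 - u 1 * v 0)) * hx1 - (x 0 * u 1 - x 1 * u 0) * hv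
      + (x 0 * v 1 - x 1 * v 0) * hu
  have e1 : ⟪u, u⟫ * ⟪v, v⟫ - ⟪u, v⟫ ^ 2 = l ^ 2 := by
    have : ⟪u, u⟫ * ⟪v, v⟫ - ⟪u, v⟫ ^ 2 = (u 1 * v 2 - u 2 * v 1) ^ 2 + (u 2 * v 0 - u 0 * v 2) ^ 2
      + (u 0 * v 1 - u 1 * v 0) ^ 2 := by
      rw [in3, in3, in3]; ring
    rw [this, h0, h1, h2]
    linear_combination l ^ 2 * hx1
  rw [e1]
  have e2 : Hb u u * ⟪v, v⟫ + Hb v v * ⟪u, u⟫ - 2 * Hb u v * ⟪u, v⟫
      = - (2 * (u 1 * v 2 - u 2 * v 1) * ((u 2 * v 0 - u 0 * v 2) + (u 0 * v 1 - u 1 * v 0))) := by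
    rw [in3, in3, in3]
    simp only [Hb, HbG]
    ring
  rw [e2, h0, h1, h2]
  simp only [Hb, HbG]
  ring

theorem num_hE {κ : ℝ} (hκ : |κ| ≤ 1/10) {x u v : E3} (hx : ‖x‖ = 1) (hu : ⟪x, u⟫ = 0) (hv : ⟪x, v⟫ = 0) :
    num (hE κ) x u v = (sg κ x ^ 4)⁻¹ * Kc κ x * (‖u‖ ^ 2 * ‖v‖ ^ 2 - ⟪u, v⟫ ^ 2) := by
  have hx0 := ne_zero_of_unit hx
  have hs : sg κ x ≠ 0 := by
    rw [← pp_unit κ hx]
    exact (pp_pos hκ hx0).ne'
  have hs' : sg κ x = 1 - κ * Hb x x := rfl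
  have hT := trace_tangent hx hu hv
  rw [num, ddG_hE hκ hx hu hv hu hv, ddG_hE hκ hx hu hu hv hv, ddG_hE hκ hx hv hv hu hu,
    gam_hE hκ hx hv hv, gam_hE hκ hx hu hv, chr_hE hκ hx hu hu, chr_hE hκ hx hu hv, Kc]
  have e1 : ⟪x, Hv x⟫ = Hb x x := by rw [Hb_eq, real_inner_comm]
  have e2 : ∀ y, Hb x y = ⟪Hv x, y⟫ := fun y => Hb_eq x y
  have e3 : ⟪u, Hv x⟫ = Hb x u := by rw [Hb_eq, real_inner_comm]
  have e4 : ⟪v, Hv x⟫ = Hb x v := by rw [Hb_eq, real_inner_comm]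
  have e5 : ⟪Hv x, Hv x⟫ = ‖Hv x‖ ^ 2 := real_inner_self_eq_norm_sq _
  have e6 : ∀ a b : E3, Hb x (a + b) = Hb x a + Hb x b := fun a b => by
    rw [e2, e2, e2, inner_add_right]
  have e7 : ∀ a b : E3, Hb x (a - b) = Hb x a - Hb x b := fun a b => by
    rw [e2, e2, e2, inner_sub_right]
  have e8 : ∀ (r : ℝ) (a : E3), Hb x (r • a) = r * Hb x a := fun r a => by
    rw [e2, e2, inner_smul_right]
  have e9 : Hb x (Hv x) = ‖Hv x‖ ^ 2 := by rw [e2, e5]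
  have hvx : ⟪v, x⟫ = 0 := by rw [real_inner_comm, hv]
  have hux : ⟪u, x⟫ = 0 := by rw [real_inner_comm, hu]
  rw [← real_inner_self_eq_norm_sq u, ← real_inner_self_eq_norm_sq v]
  simp only [e6, e7, e8, e9, inner_add_right, inner_sub_right, inner_smul_right, hu, hv, hvx, hux,
    inner_unit hx, pp_unit κ hx, e1, e3, e4, real_inner_comm u v]
  simp only [pp, hu, hv]
  generalize Hb x u = Hu at *
  generalize Hb x v = Hw at *
  generalize Hb u u = Huu at *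
  generalize Hb u v = Huv at *
  generalize Hb v v = Hvv at *
  generalize Hb x x = H at *
  generalize ⟪u, v⟫ = g at *
  generalize ⟪u, u⟫ = a at *
  generalize ⟪v, v⟫ = b at *
  generalize ‖Hv x‖ ^ 2 = N at *
  generalize sg κ x = S at *
  subst hs'
  field_simp
  linear_combination (-4 * κ * (1 - κ * H)) * hT

end Pool.Agent.Helper87.HP
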